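import Pool.Agent.H773.CS.Stm

/-!
Project CS (MP_8ad0a3_lc): the bounds from the clauses (a) and (b).
-/

open Finset

namespace Pool.Agent.H922.CS

open Pool.Agent.H773.CS

namespace Three

/-- the remaining coordinates of a block -/
abbrev Rest (P : ℕ) : Type := Bool × (ZMod P × Bool × Bool) × (ZMod P × Bool)

theorem card_rest (P : ℕ) [NeZero P] : Fintype.card (Rest P) = 16 * P ^ 2 := by
  simp only [Fintype.card_prod, Fintype.card_bool, ZMod.card]
  ring

theorem aux {P : ℕ} [NeZero P] (f : Blk P → (ZMod P × Bool) × (ZMod P × Bool))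
    (g : Blk P → Rest P) (h : Function.Injective (fun b => (f b, g b)))
    (S : Finset ((ZMod P × Bool) × (ZMod P × Bool))) :
    (univ.filter (fun b : Blk P => f b ∈ S)).card ≤ S.card * (16 * P ^ 2) := by
  have h1 : (univ.filter (fun b : Blk P => f b ∈ S)).card ≤
      (S ×ˢ (univ : Finset (Rest P))).card := by
    refine Finset.card_le_card_of_injOn (fun b => (f b, g b)) ?_ (h.injOn)
    intro b hb
    simp only [Finset.coe_filter, Finset.mem_univ, true_and, Set.mem_ofPred_eq] at hb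
    simp [hb]
  rw [Finset.card_product, Finset.card_univ, card_rest] at h1
  exact h1

theorem p01 {P : ℕ} [NeZero P] (S : Finset ((ZMod P × Bool) × (ZMod P × Bool))) :
    (univ.filter (fun b : Blk P => (bvar b 0, bvar b 1) ∈ S)).card ≤ S.card * (16 * P ^ 2) := by
  refine aux (fun b => (bvar b 0, bvar b 1)) (fun b => (b.2.1.2.2, b.2.2.1, b.2.2.2)) ?_ S
  rintro ⟨⟨y, cy⟩, ⟨x1, cx1, cu1⟩, ⟨x2, cx2, cu2⟩, ⟨p, cp⟩⟩
    ⟨⟨y', cy'⟩, ⟨x1', cx1', cu1'⟩, ⟨x2', cx2', cu2'⟩, ⟨p', cp'⟩⟩ h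
  simp only [bvar, Matrix.cons_val_zero, Matrix.cons_val_one, Prod.mk.injEq] at h ⊢
  tauto

theorem p12 {P : ℕ} [NeZero P] (S : Finset ((ZMod P × Bool) × (ZMod P × Bool))) :
    (univ.filter (fun b : Blk P => (bvar b 1, bvar b 2) ∈ S)).card ≤ S.card * (16 * P ^ 2) := by
  refine aux (fun b => (bvar b 1, bvar b 2)) (fun b => (b.1.2, b.2.2.1, b.2.2.2)) ?_ S
  rintro ⟨⟨y, cy⟩, ⟨x1, cx1, cu1⟩, ⟨x2, cx2, cu2⟩, ⟨p, cp⟩⟩
    ⟨⟨y', cy'⟩, ⟨x1', cx1', cu1'⟩, ⟨x2', cx2', cu2'⟩, ⟨p', cp'⟩⟩ h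
  simp only [bvar, Matrix.cons_val_zero, Matrix.cons_val_one, Matrix.cons_val,
    Prod.mk.injEq] at h ⊢
  obtain ⟨⟨⟨h1, h2⟩, h3, h4⟩, h5, h6, h7⟩ := h
  subst h1
  have h8 := add_left_cancel h3
  tauto

theorem p02 {P : ℕ} [NeZero P] (S : Finset ((ZMod P × Bool) × (ZMod P × Bool))) :
    (univ.filter (fun b : Blk P => (bvar b 0, bvar b 2) ∈ S)).card ≤ S.card * (16 * P ^ 2) := by
  refine aux (fun b => (bvar b 0, bvar b 2)) (fun b => (b.2.1.2.1, b.2.2.1, b.2.2.2)) ?_ S
  rintro ⟨⟨y, cy⟩, ⟨x1, cx1, cu1⟩, ⟨x2, cx2, cu2⟩, ⟨p, cp⟩⟩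
    ⟨⟨y', cy'⟩, ⟨x1', cx1', cu1'⟩, ⟨x2', cx2', cu2'⟩, ⟨p', cp'⟩⟩ h
  simp only [bvar, Matrix.cons_val_zero, Matrix.cons_val_one, Matrix.cons_val,
    Prod.mk.injEq] at h ⊢
  obtain ⟨⟨⟨h1, h2⟩, h3, h4⟩, h5, h6, h7⟩ := h
  subst h1
  have h8 := add_right_cancel h3
  tauto

/-- three pair conditions at once -/
theorem three {P : ℕ} [NeZero P] (A : Set (Blk P))
    (S T U : Finset ((ZMod P × Bool) × (ZMod P × Bool))) (m : ℕ) (hS : S.card ≤ 2 * P * m)
    (hT : T.card ≤ 2 * P * m) (hU : U.card ≤ 2 * P * m)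
    (h : ∀ b ∈ A, (bvar b 0, bvar b 1) ∈ S ∨ (bvar b 1, bvar b 2) ∈ T ∨
      (bvar b 0, bvar b 2) ∈ U) :
    Set.ncard A ≤ 3 * (32 * P ^ 3) * m := by
  classical
  have h1 : A ⊆ ((univ.filter (fun b : Blk P => (bvar b 0, bvar b 1) ∈ S) ∪
      (univ.filter (fun b : Blk P => (bvar b 1, bvar b 2) ∈ T) ∪
        univ.filter (fun b : Blk P => (bvar b 0, bvar b 2) ∈ U)) : Finset (Blk P)) :
        Set (Blk P)) := by
    intro b hb
    simp only [Finset.coe_union, Finset.coe_filter, Finset.mem_univ, true_and, Set.mem_union,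
      Set.mem_ofPred_eq]
    exact h b hb
  have h2 := Set.ncard_le_ncard h1 (Finset.finite_toSet _)
  rw [Set.ncard_coe_finset] at h2
  have h3 := Finset.card_union_le (univ.filter (fun b : Blk P => (bvar b 0, bvar b 1) ∈ S))
    (univ.filter (fun b : Blk P => (bvar b 1, bvar b 2) ∈ T) ∪
        univ.filter (fun b : Blk P => (bvar b 0, bvar b 2) ∈ U))
  have h4 := Finset.card_union_le (univ.filter (fun b : Blk P => (bvar b 1, bvar b 2) ∈ T))
    (univ.filter (fun b : Blk P => (bvar b 0, bvar b 2) ∈ U))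
  have h5 := (p01 S).trans (Nat.mul_le_mul_right _ hS)
  have h6 := (p12 T).trans (Nat.mul_le_mul_right _ hT)
  have h7 := (p02 U).trans (Nat.mul_le_mul_right _ hU)
  have h8 : 3 * (32 * P ^ 3) * m = 2 * P * m * (16 * P ^ 2) + (2 * P * m * (16 * P ^ 2) +
    2 * P * m * (16 * P ^ 2)) := by ring
  rw [h8]
  exact h2.trans (h3.trans (Nat.add_le_add h5 (h4.trans (Nat.add_le_add h6 h7))))

theorem card_V (P : ℕ) [NeZero P] : Fintype.card (ZMod P × Bool) = 2 * P := by
  simp only [Fintype.card_prod, Fintype.card_bool, ZMod.card]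
  ring

end Three

open Three in
theorem t_three : S_three := by
  classical
  intro P q _ τ
  obtain ⟨d, hd⟩ := Finite.exists_max (fun d : Option (Fin q) => (cls τ d).card)
  refine ⟨d, ?_⟩
  let S : Finset ((ZMod P × Bool) × (ZMod P × Bool)) :=
    univ.filter fun v => IsLab (τ v.1) ∧ IsLab (τ v.2) ∧ coarse (τ v.1) = coarse (τ v.2)
  have hS : S.card ≤ 2 * P * (cls τ d).card := by
    have h1 : S.card = ∑ v : ZMod P × Bool, (univ.filter fun v' : ZMod P × Bool =>
        IsLab (τ v) ∧ IsLab (τ v') ∧ coarse (τ v) = coarse (τ v')).card := by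
      simp only [S, Finset.card_filter]
      rw [Fintype.sum_prod_type]
    rw [h1]
    calc _ ≤ ∑ v : ZMod P × Bool, (cls τ d).card := by
          refine Finset.sum_le_sum fun v _ => ?_
          refine le_trans (Finset.card_le_card ?_) (hd (coarse (τ v)))
          intro v' hv'
          simp only [Finset.mem_filter, Finset.mem_univ, true_and] at hv'
          simp only [cls, Finset.mem_filter, Finset.mem_univ, true_and]
          exact ⟨hv'.2.1, hv'.2.2.symm⟩
      _ = 2 * P * (cls τ d).card := by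
          rw [Finset.sum_const, Finset.card_univ, card_V, smul_eq_mul]
  have h := three {b : Blk P | LabOK (fun r => τ (bvar b r))} S S S (cls τ d).card hS hS hS ?_
  · exact_mod_cast h
  · intro b hb
    obtain ⟨h1, h2, -⟩ := hb
    simp only [S, Finset.mem_filter, Finset.mem_univ, true_and]
    rcases h2 with h2 | h2 | h2
    · exact Or.inl ⟨h1 0, h1 1, h2.symm⟩
    · exact Or.inr (Or.inl ⟨h1 1, h1 2, h2⟩)
    · exact Or.inr (Or.inr ⟨h1 0, h1 2, h2⟩)

open Three in
theorem t_b : S_b := by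
  classical
  intro P q _ τ c
  have hc : (cls τ (some c)).card ≤ 2 * P := by
    have := Finset.card_le_univ (cls τ (some c))
    rwa [card_V] at this
  let D : Finset (ZMod P × Bool) := (cls τ (some c))ᶜ
  have hD : D.card = 2 * P - (cls τ (some c)).card := by
    simp only [D]
    rw [Finset.card_compl, card_V]
  have hmem : ∀ v, v ∉ D → τ v = .C c := by
    intro v hv
    simp only [D, Finset.mem_compl, not_not, cls, Finset.mem_filter, Finset.mem_univ,
      true_and] at hv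
    obtain ⟨hv1, hv2⟩ := hv
    rcases hv1 with ⟨t, ht⟩ | ⟨c', hc'⟩
    · rw [ht] at hv2
      simp [coarse] at hv2
    · rw [hc'] at hv2 ⊢
      simp only [coarse, Option.some.injEq] at hv2
      rw [hv2]
  have h1 : (D ×ˢ (univ : Finset (ZMod P × Bool))).card ≤ 2 * P * D.card := by
    rw [Finset.card_product, Finset.card_univ, card_V]
    exact le_of_eq (by ring)
  have h2 : ((univ : Finset (ZMod P × Bool)) ×ˢ D).card ≤ 2 * P * D.card := by
    rw [Finset.card_product, Finset.card_univ, card_V]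
  have h := three {b : Blk P | LabOK (fun r => τ (bvar b r))} (D ×ˢ univ) (D ×ˢ univ)
    (univ ×ˢ D) D.card h1 h1 h2 ?_
  · have h3 : ((2 * P - (cls τ (some c)).card : ℕ) : ℝ) = 2 * (P : ℝ) -
      ((cls τ (some c)).card : ℝ) := by
      rw [Nat.cast_sub hc]
      push_cast
      ring
    rw [← h3, ← hD]
    exact_mod_cast h
  · intro b hb
    obtain ⟨-, -, h3, -⟩ := hb
    by_contra hcon
    simp only [Finset.mem_product, Finset.mem_univ, and_true, true_and, not_or] at hcon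
    exact h3 c ⟨hmem _ hcon.2.1, hmem _ hcon.1, hmem _ hcon.2.2⟩

end Pool.Agent.H922.CS
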